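import Mathlib

set_option autoImplicit false

namespace Pool.Agent.Results.MP_45ad35_al.PartitionCovering

universe u

/-- The semigroup `S¹`, as a subset of `S` with an identity adjoined (`WithOne S`):
it is (the copy of) `S` itself when `S` has an identity element, and the whole of
`WithOne S`, that is `S` with an identity adjoined, otherwise. -/
def SOne (S : Type u) [Semigroup S] : Set (WithOne S) :=
  {g | (∃ e : S, ∀ x : S, e * x = x ∧ x * e = x) → ∃ s : S, g = (s : WithOne S)}

/-- o-conjugacy: `a ∼ₒ b` when there are `g, h ∈ S¹` with `a g = g b` and `b h = h a`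
(products taken in `WithOne S`, which extends the product of `S`). -/
def OConj {S : Type u} [Semigroup S] (a b : S) : Prop :=
  ∃ g ∈ SOne S, ∃ h ∈ SOne S,
    (a : WithOne S) * g = g * (b : WithOne S) ∧ (b : WithOne S) * h = h * (a : WithOne S)

/-- Elements of `S` lie in `S¹`. -/
theorem coe_mem_SOne {S : Type u} [Semigroup S] (s : S) : (s : WithOne S) ∈ SOne S :=
  fun _ => ⟨s, rfl⟩

/-- Every nonempty set carries an abelian group structure. -/
theorem exists_commGroup (Y : Type u) [Nonempty Y] : Nonempty (CommGroup Y) := by
  classical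
  rcases finite_or_infinite Y with hfin | hinf
  · have := Fintype.ofFinite Y
    have hpos : 0 < Fintype.card Y := Fintype.card_pos
    have : NeZero (Fintype.card Y) := ⟨hpos.ne'⟩
    have e : Y ≃ Multiplicative (ZMod (Fintype.card Y)) :=
      (Fintype.equivFin Y).trans
        ((ZMod.finEquiv (Fintype.card Y)).toEquiv.trans Multiplicative.ofAdd)
    exact ⟨e.commGroup⟩
  · have hcard : Cardinal.mk (Y →₀ ULift.{u} ℤ) = Cardinal.mk Y := by
      rw [Cardinal.mk_finsupp_of_infinite Y (ULift.{u} ℤ)]
      simp
    obtain ⟨e⟩ := Cardinal.eq.1 hcard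
    exact ⟨(e.symm.trans Multiplicative.ofAdd).commGroup⟩

/-- **o-conjugacy is partition covering.**  For every nonempty type `X` and every partition of
`X` (given as an equivalence relation `τ`, whose classes are the blocks), there is an
associative binary operation on `X` whose o-conjugacy relation is exactly `τ`, so that the
o-conjugacy classes are exactly the blocks of `τ`. -/
theorem result (X : Type u) [Nonempty X] (τ : Setoid X) :
    ∃ inst : Semigroup X, ∀ a b : X, @OConj X inst a b ↔ τ a b := by
  classical
  have : Nonempty (Quotient τ) := ⟨Quotient.mk τ (Classical.arbitrary X)⟩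
  obtain ⟨grp⟩ := exists_commGroup (Quotient τ)
  let r : X → Quotient τ := Quotient.mk τ
  let s : Quotient τ → X := Quotient.out
  have hrs : ∀ q, r (s q) = q := fun q => Quotient.out_eq q
  let inst : Semigroup X :=
    { mul := fun x y => s (r x * r y)
      mul_assoc := by
        intro x y z
        change s (r (s (r x * r y)) * r z) = s (r x * r (s (r y * r z)))
        rw [hrs, hrs, mul_assoc] }
  have hmul : ∀ x y : X, r (x * y) = r x * r y := fun x y => hrs _
  have hmul' : ∀ x y : X, x * y = s (r x * r y) := fun x y => rfl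
  refine ⟨inst, fun a b => ⟨?_, ?_⟩⟩
  · rintro ⟨g, -, h, -, h1, -⟩
    apply Quotient.exact
    change r a = r b
    rcases eq_or_ne g 1 with rfl | hg
    · rw [mul_one, one_mul] at h1
      rw [WithOne.coe_inj.1 h1]
    · obtain ⟨g, rfl⟩ := WithOne.ne_one_iff_exists.1 hg
      rw [← WithOne.coe_mul, ← WithOne.coe_mul] at h1
      have h2 := congrArg r (WithOne.coe_inj.1 h1)
      rw [hmul, hmul, mul_comm (r g)] at h2
      exact mul_right_cancel h2
  · intro hab
    have hr : r a = r b := Quotient.sound hab
    refine ⟨(s 1 : X), coe_mem_SOne _, (s 1 : X), coe_mem_SOne _, ?_, ?_⟩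
    · rw [← WithOne.coe_mul, ← WithOne.coe_mul, hmul', hmul', hr, mul_comm]
    · rw [← WithOne.coe_mul, ← WithOne.coe_mul, hmul', hmul', hr, mul_comm]

end Pool.Agent.Results.MP_45ad35_al.PartitionCovering
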